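import Mathlib

/-!
# 2-spanners of intersection graphs of fat objects may need `n^(3/2) / 6` edges

For every `η > 0` and every prime `p` there is a family of `n = 2 p²` compact convex bodies in the
space `ℝ^d`, `d ≥ 2`, each of which lies between two concentric balls whose radii have a ratio of at
most `1 + η`, such that two points stab the whole family (so it is `2`-fat) and every `2`-spanner of
its intersection graph has at least `n^(3/2) / 6` edges. So there is no bound `K n^(3/2 - δ)` for fat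
objects in three dimensions: the open problem asked for such a bound.

Construction: let `w_j` be unit vectors with small angles between them, one for each of the `p²`
non-vertical lines `j` of the affine plane over `F_p`. The first `p²` bodies all contain the unit ball;
they are the balls of radius `1 + ε` from which small caps around those `w_j` are cut off for which
the point `i` is not on the line `j`. The other `p²` bodies are equal large balls `B_j` which reach to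
the point `(1 + ε/2) w_j`. So the two halves of the intersection graph are cliques, and between
them there is the incidence graph of points and lines, which has `p³` edges and no 4-cycle. An edge
`i j` of the incidence graph which is not in the spanner is replaced by a path `i k j` or `i l j`, and
then `j` is the only common neighbour of `i`, `k` (or `i` that of `j`, `l`) in the incidence graph. So
the incidences are mapped injectively to the oriented edges of the spanner.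
-/

set_option autoImplicit false

namespace Pool.Agent.Results.MP_47a88a_co.ConvexBodiesNeedThreeHalves

open Metric

/-- The intersection graph of a family of objects: different indices are adjacent if and only if the
two objects have a common point. -/
def interGraph {ι X : Type*} (A : ι → Set X) : SimpleGraph ι where
  Adj i j := i ≠ j ∧ (A i ∩ A j).Nonempty
  symm := ⟨fun i j h => ⟨h.1.symm, by rw [Set.inter_comm]; exact h.2⟩⟩
  loopless := ⟨fun i h => h.1 rfl⟩

/-- `H` is a `t`-spanner of `G`: a spanning subgraph with `d_H ≤ t d_G`. -/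
def IsSpanner {ι : Type*} (t : ℕ) (G H : SimpleGraph ι) : Prop :=
  H ≤ G ∧ ∀ x y, H.edist x y ≤ t * G.edist x y

/-- The closed axis-aligned cube with lowest corner `a` and side length `ℓ`. -/
def cube {d : ℕ} (a : EuclideanSpace ℝ (Fin d)) (ℓ : ℝ) : Set (EuclideanSpace ℝ (Fin d)) :=
  {x | ∀ k, a k ≤ x k ∧ x k ≤ a k + ℓ}

/-- `c`-fat families: for every cube of side length `ℓ > 0`, at most `c` points meet every member of
the family that intersects the cube and has diameter at least `ℓ`. -/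
def Fat {d : ℕ} {ι : Type*} (c : ℝ) (A : ι → Set (EuclideanSpace ℝ (Fin d))) : Prop :=
  ∀ (a : EuclideanSpace ℝ (Fin d)) (ℓ : ℝ), 0 < ℓ → ∃ S : Finset (EuclideanSpace ℝ (Fin d)),
    (S.card : ℝ) ≤ c ∧ ∀ i, (A i ∩ cube a ℓ).Nonempty → ℓ ≤ diam (A i) → ∃ s ∈ S, s ∈ A i

/-! ### The combinatorial part -/

theorem two_path {ι : Type*} {G H : SimpleGraph ι} (h : IsSpanner 2 G H) {x y : ι}
    (hxy : G.Adj x y) : H.Adj x y ∨ ∃ z, H.Adj x z ∧ H.Adj z y := by
  have h1 : H.edist x y ≤ 2 := by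
    have := h.2 x y
    rw [SimpleGraph.edist_eq_one_iff_adj.2 hxy] at this
    simpa using this
  have h2 : H.edist x y ≠ ⊤ := fun h3 => by rw [h3] at h1; exact absurd h1 (by decide)
  obtain ⟨q, hq⟩ := SimpleGraph.exists_walk_of_edist_ne_top h2
  have h3 : q.length ≤ 2 := by
    rw [← hq] at h1
    exact_mod_cast h1
  cases q with
  | nil => exact absurd rfl hxy.ne
  | cons h4 q1 =>
    cases q1 with
    | nil => exact Or.inl h4
    | cons h5 q2 =>
      cases q2 with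
      | nil => exact Or.inr ⟨_, h4, h5⟩
      | cons h6 q3 => simp at h3

theorem spanner_lower {ι P Q : Type*} [Fintype ι] [Fintype P] [Fintype Q] (G H : SimpleGraph ι)
    (hs : IsSpanner 2 G H) (a : P → ι) (b : Q → ι) (ha : Function.Injective a)
    (hb : Function.Injective b) (hab : ∀ i j, a i ≠ b j) (hc : ∀ x, (∃ i, x = a i) ∨ ∃ j, x = b j)
    (M : P → Q → Prop) (hG : ∀ i j, G.Adj (a i) (b j) ↔ M i j)
    (hM : ∀ i i' j j', M i j → M i j' → M i' j → M i' j' → i = i' ∨ j = j') :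
    Nat.card {x : P × Q // M x.1 x.2} ≤ 2 * H.edgeSet.ncard := by
  classical
  -- the choice of an oriented edge of `H` for each incidence
  have key : ∀ x : {x : P × Q // M x.1 x.2}, ∃ e : ι × ι, H.Adj e.1 e.2 ∧
      (e = (a x.1.1, b x.1.2) ∨ (∃ k, k ≠ x.1.1 ∧ e = (a x.1.1, a k) ∧ M k x.1.2) ∨
        ∃ l, l ≠ x.1.2 ∧ e = (b x.1.2, b l) ∧ M x.1.1 l) := by
    rintro ⟨⟨i, j⟩, hij⟩
    rcases two_path hs ((hG i j).2 hij) with h | ⟨z, h1, h2⟩
    · exact ⟨(a i, b j), h, Or.inl rfl⟩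
    · rcases hc z with ⟨k, rfl⟩ | ⟨l, rfl⟩
      · refine ⟨(a i, a k), h1, Or.inr (Or.inl ⟨k, ?_, rfl, (hG _ _).1 (hs.1 h2)⟩)⟩
        rintro rfl
        exact h1.ne rfl
      · refine ⟨(b j, b l), h2.symm, Or.inr (Or.inr ⟨l, ?_, rfl, (hG _ _).1 (hs.1 h1)⟩)⟩
        rintro rfl
        exact h2.ne rfl
  choose e he1 he2 using key
  have hinj : Function.Injective fun x : {x : P × Q // M x.1 x.2} =>
      (⟨e x, he1 x⟩ : H.Dart) := by
    intro x y hxy
    have hxy' : e x = e y := by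
      have := congrArg (fun d : H.Dart => d.toProd) hxy
      exact this
    obtain ⟨⟨i, j⟩, hij⟩ := x
    obtain ⟨⟨i', j'⟩, hij'⟩ := y
    have hx := he2 ⟨(i, j), hij⟩
    have hy := he2 ⟨(i', j'), hij'⟩
    rw [← hxy'] at hy
    simp only at hij hij' hx hy
    have hba : ∀ i j, b j ≠ a i := fun i j h => hab i j h.symm
    suffices i = i' ∧ j = j' by
      obtain ⟨rfl, rfl⟩ := this
      rfl
    rcases hx with h1 | ⟨k, hk, h1, hkM⟩ | ⟨l, hl, h1, hlM⟩ <;>
    rcases hy with h2 | ⟨k', hk', h2, hkM'⟩ | ⟨l', hl', h2, hlM'⟩ <;>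
    rw [h1] at h2 <;> simp only [Prod.mk.injEq] at h2 <;> obtain ⟨h3, h4⟩ := h2
    · exact ⟨ha h3, hb h4⟩
    · exact absurd h4.symm (hab _ _)
    · exact absurd h3 (hab _ _)
    · exact absurd h4 (hab _ _)
    · have h5 := ha h3
      have h6 := ha h4
      subst h5; subst h6
      rcases hM i k j j' hij hij' hkM hkM' with h | h
      · exact absurd h.symm hk
      · exact ⟨rfl, h⟩
    · exact absurd h3 (hab _ _)
    · exact absurd h3 (hba _ _)
    · exact absurd h3 (hba _ _)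
    · have h5 := hb h3
      have h6 := hb h4
      subst h5; subst h6
      rcases hM i i' j l hij hlM hij' hlM' with h | h
      · exact ⟨h, rfl⟩
      · exact absurd h.symm hl
  have h1 := Nat.card_le_card_of_injective _ hinj
  rw [Nat.card_eq_fintype_card (α := H.Dart), SimpleGraph.dart_card_eq_twice_card_edges] at h1
  rwa [← SimpleGraph.coe_edgeFinset, Set.ncard_coe_finset]

/-- incidence of the point `i = (x, y)` and the line `y = m x + b`, `j = (m, b)` -/
def Inc (p : ℕ) (i j : ZMod p × ZMod p) : Prop := i.2 = j.1 * i.1 + j.2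

theorem inc_c4 (p : ℕ) [Fact p.Prime] (i i' j j' : ZMod p × ZMod p) (h1 : Inc p i j)
    (h2 : Inc p i j') (h3 : Inc p i' j) (h4 : Inc p i' j') : i = i' ∨ j = j' := by
  obtain ⟨x, y⟩ := i
  obtain ⟨x', y'⟩ := i'
  obtain ⟨m, b⟩ := j
  obtain ⟨m', b'⟩ := j'
  simp only [Inc] at h1 h2 h3 h4
  have h5 : (m - m') * (x - x') = 0 := by linear_combination -h1 + h2 + h3 - h4
  rcases mul_eq_zero.1 h5 with h | h
  · right
    have hm : m = m' := sub_eq_zero.1 h
    subst hm
    have : b = b' := by linear_combination h2 - h1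
    rw [this]
  · left
    have hx : x = x' := sub_eq_zero.1 h
    subst hx
    have : y = y' := by rw [h1, h3]
    rw [this]

theorem inc_card (p : ℕ) [Fact p.Prime] :
    Nat.card {x : (ZMod p × ZMod p) × (ZMod p × ZMod p) // Inc p x.1 x.2} = p ^ 3 := by
  have e : {x : (ZMod p × ZMod p) × (ZMod p × ZMod p) // Inc p x.1 x.2} ≃
      ZMod p × ZMod p × ZMod p :=
    { toFun := fun x => (x.1.1.1, x.1.2.1, x.1.2.2)
      invFun := fun t => ⟨((t.1, t.2.1 * t.1 + t.2.2), (t.2.1, t.2.2)), rfl⟩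
      left_inv := by
        rintro ⟨⟨⟨x, y⟩, ⟨m, b⟩⟩, h⟩
        simp only [Inc] at h
        simp [h]
      right_inv := fun t => rfl }
  rw [Nat.card_congr e, Nat.card_prod, Nat.card_prod, Nat.card_zmod]
  ring

/-! ### The bodies -/

section Bodies

variable {E : Type*} [NormedAddCommGroup E] [InnerProductSpace ℝ E]

open scoped RealInnerProductSpace

/-- ball of radius `1 + ε` with caps cut off -/
def bodyA {P Q : Type*} (w : Q → E) (ε : ℝ) (M : P → Q → Prop) (i : P) : Set E :=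
  closedBall 0 (1 + ε) ∩ {x | ∀ j, ¬ M i j → ⟪w j, x⟫ ≤ 1 + ε / 4}

/-- large balls -/
def bodyB {Q : Type*} (w : Q → E) (ε : ℝ) (j : Q) : Set E :=
  closedBall ((1 + ε / 2 + 20) • w j) 20

variable {P Q : Type*} {w : Q → E} {ε : ℝ} {M : P → Q → Prop}

theorem bodyA_big (hw : ∀ j, ‖w j‖ = 1) (hε : 0 < ε) (i : P) :
    closedBall 0 1 ⊆ bodyA w ε M i := by
  intro x hx
  rw [mem_closedBall_zero_iff] at hx
  refine ⟨?_, fun j _ => ?_⟩
  · rw [mem_closedBall_zero_iff]; linarith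
  · have := real_inner_le_norm (w j) x
    rw [hw j, one_mul] at this
    linarith

theorem bodyA_convex (i : P) : Convex ℝ (bodyA w ε M i) := by
  refine (convex_closedBall _ _).inter ?_
  have : {x : E | ∀ j, ¬ M i j → ⟪w j, x⟫ ≤ 1 + ε / 4} =
      ⋂ j, ⋂ (_ : ¬ M i j), {x : E | ⟪w j, x⟫ ≤ 1 + ε / 4} := by
    ext x; simp
  rw [this]
  refine convex_iInter fun j => convex_iInter fun _ => ?_
  exact convex_halfSpace_le (f := fun x => ⟪w j, x⟫)
    ⟨fun x y => inner_add_right _ _ _, fun c x => by rw [inner_smul_right, smul_eq_mul]⟩ _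

theorem bodyA_closed (i : P) : IsClosed (bodyA w ε M i) := by
  refine isClosed_closedBall.inter ?_
  have : {x : E | ∀ j, ¬ M i j → ⟪w j, x⟫ ≤ 1 + ε / 4} =
      ⋂ j, ⋂ (_ : ¬ M i j), {x : E | ⟪w j, x⟫ ≤ 1 + ε / 4} := by
    ext x; simp
  rw [this]
  refine isClosed_iInter fun j => isClosed_iInter fun _ => ?_
  exact isClosed_le (continuous_const.inner continuous_id) continuous_const

theorem meet (hw : ∀ j, ‖w j‖ = 1) (hε : 0 < ε) (hε1 : ε ≤ 1)
    (hww : ∀ j k, j ≠ k → ⟪w j, w k⟫ ≤ 1 - ε) {i : P} {j : Q} (h : M i j) :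
    (bodyA w ε M i ∩ bodyB w ε j).Nonempty := by
  refine ⟨(1 + ε) • w j, ⟨?_, fun k hk => ?_⟩, ?_⟩
  · rw [mem_closedBall_zero_iff, norm_smul, hw, mul_one, Real.norm_eq_abs, abs_of_pos (by linarith)]
  · have hkj : k ≠ j := by rintro rfl; exact hk h
    rw [inner_smul_right]
    nlinarith [hww k j hkj, mul_nonneg (by linarith : (0:ℝ) ≤ 1 + ε)
      (sub_nonneg.2 (hww k j hkj))]
  · rw [bodyB, mem_closedBall, dist_eq_norm, ← sub_smul, norm_smul, hw, mul_one, Real.norm_eq_abs,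
      abs_le]
    constructor <;> linarith

theorem apart (hw : ∀ j, ‖w j‖ = 1) (hε : 0 < ε) {i : P} {j : Q} (h : ¬ M i j) :
    ¬ (bodyA w ε M i ∩ bodyB w ε j).Nonempty := by
  rintro ⟨x, ⟨_, h1⟩, h2⟩
  have h3 := h1 j h
  rw [bodyB, mem_closedBall, dist_eq_norm] at h2
  have h4 : ⟪w j, (1 + ε / 2 + 20) • w j - x⟫ ≤ 20 := by
    refine (real_inner_le_norm _ _).trans ?_
    rw [hw, one_mul, norm_sub_rev]
    exact h2
  rw [inner_sub_right, inner_smul_right, real_inner_self_eq_norm_sq, hw] at h4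
  linarith

theorem stabB {u : E} (hu : ‖u‖ = 1) (hw : ∀ j, ‖w j‖ = 1) (huw : ∀ j, 1 / 2 ≤ ⟪u, w j⟫)
    (hε : 0 < ε) (hε1 : ε ≤ 1) (j : Q) : ((1 + ε / 2 + 20) / 2) • u ∈ bodyB w ε j := by
  rw [bodyB, mem_closedBall, dist_eq_norm]
  set ρ : ℝ := 1 + ε / 2 + 20 with hρ
  have h1 : ‖(ρ / 2) • u - ρ • w j‖ ^ 2 ≤ 20 ^ 2 := by
    rw [norm_sub_sq_real, norm_smul, norm_smul, hu, hw, real_inner_smul_left, inner_smul_right,
      Real.norm_eq_abs, Real.norm_eq_abs, mul_one, mul_one, sq_abs, sq_abs]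
    have h2 : 0 < ρ := by rw [hρ]; linarith
    have h3 : ρ ≤ 43 / 2 := by rw [hρ]; linarith
    have h4 : ρ * ρ * (1 / 2) ≤ ρ * ρ * ⟪u, w j⟫ :=
      mul_le_mul_of_nonneg_left (huw j) (by positivity)
    nlinarith
  exact le_of_sq_le_sq h1 (by norm_num)

end Bodies

/-- many unit vectors with positive distances in a cap -/
theorem exists_vectors (d : ℕ) (hd : 2 ≤ d) (Q : Type) [Fintype Q] [DecidableEq Q] (η : ℝ)
    (hη : 0 < η) : ∃ (w : Q → EuclideanSpace ℝ (Fin d)) (u : EuclideanSpace ℝ (Fin d)) (ε : ℝ),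
      ‖u‖ = 1 ∧ (∀ j, ‖w j‖ = 1) ∧ (∀ j, 1 / 2 ≤ inner ℝ u (w j)) ∧ 0 < ε ∧ ε ≤ 1 ∧ ε ≤ η ∧
      ∀ j k, j ≠ k → inner ℝ (w j) (w k) ≤ 1 - ε := by
  classical
  obtain ⟨d, rfl⟩ : ∃ e, d = e + 2 := ⟨d - 2, by omega⟩
  set u : EuclideanSpace ℝ (Fin (d + 2)) := EuclideanSpace.single 0 1 with hu
  set v : EuclideanSpace ℝ (Fin (d + 2)) := EuclideanSpace.single 1 1 with hv
  have huu : inner ℝ u u = (1 : ℝ) := by simp [hu]
  have hvv : inner ℝ v v = (1 : ℝ) := by simp [hv]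
  have huv : inner ℝ u v = (0 : ℝ) := by
    rw [hu, hv, EuclideanSpace.inner_single_left]
    simp
  have hvu : inner ℝ v u = (0 : ℝ) := by rw [real_inner_comm, huv]
  let W : ℝ → EuclideanSpace ℝ (Fin (d + 2)) := fun t => Real.cos t • u + Real.sin t • v
  have hW : ∀ s t, inner ℝ (W s) (W t) = Real.cos (s - t) := by
    intro s t
    simp only [W, inner_add_left, inner_add_right, real_inner_smul_left, inner_smul_right, huu, hvv,
      huv, hvu, Real.cos_sub]
    ring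
  have hWn : ∀ t, ‖W t‖ = 1 := by
    intro t
    have : ‖W t‖ ^ 2 = 1 := by rw [← real_inner_self_eq_norm_sq, hW, sub_self, Real.cos_zero]
    nlinarith [norm_nonneg (W t)]
  have huW : u = W 0 := by simp [W]
  let g : Q → ℝ := fun j => ((Fintype.equivFin Q j : ℕ) : ℝ) / (Fintype.card Q : ℝ)
  have hg0 : ∀ j, 0 ≤ g j := fun j => by positivity
  have hg1 : ∀ j, g j ≤ 1 := fun j => by
    have h1 : (Fintype.equivFin Q j : ℕ) < Fintype.card Q := (Fintype.equivFin Q j).2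
    have h2 : (0 : ℝ) < (Fintype.card Q : ℝ) := Nat.cast_pos.2 (by omega)
    show ((Fintype.equivFin Q j : ℕ) : ℝ) / (Fintype.card Q : ℝ) ≤ 1
    rw [div_le_one h2]
    exact Nat.cast_le.2 h1.le
  have hgi : Function.Injective g := by
    intro j k hjk
    have h1 : (Fintype.equivFin Q j : ℕ) < Fintype.card Q := (Fintype.equivFin Q j).2
    have h2 : (0 : ℝ) < (Fintype.card Q : ℝ) := Nat.cast_pos.2 (by omega)
    have h3 : ((Fintype.equivFin Q j : ℕ) : ℝ) = (Fintype.equivFin Q k : ℕ) :=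
      (div_left_inj' h2.ne').1 hjk
    have h4 : (Fintype.equivFin Q j : ℕ) = (Fintype.equivFin Q k : ℕ) := by exact_mod_cast h3
    exact (Fintype.equivFin Q).injective (Fin.ext h4)
  have hlt : ∀ j k, j ≠ k → Real.cos (g j - g k) < 1 := by
    intro j k hjk
    have h1 : g j - g k ≠ 0 := sub_ne_zero.2 fun h => hjk (hgi h)
    have h2 : |g j - g k| ≤ 1 := by
      rw [abs_le]; constructor <;> linarith [hg0 j, hg0 k, hg1 j, hg1 k]
    rw [← Real.cos_abs, ← Real.cos_zero]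
    refine Real.cos_lt_cos_of_nonneg_of_le_pi le_rfl ?_ (abs_pos.2 h1)
    linarith [Real.pi_gt_three]
  obtain ⟨ε0, h0, h1⟩ : ∃ ε0 : ℝ, 0 < ε0 ∧ ∀ j k, j ≠ k → Real.cos (g j - g k) ≤ 1 - ε0 := by
    by_cases hne : Nonempty {x : Q × Q // x.1 ≠ x.2}
    · obtain ⟨x, hx⟩ := Finite.exists_max fun x : {x : Q × Q // x.1 ≠ x.2} =>
        Real.cos (g x.1.1 - g x.1.2)
      refine ⟨1 - Real.cos (g x.1.1 - g x.1.2), sub_pos.2 (hlt _ _ x.2), fun j k hjk => ?_⟩
      have := hx ⟨(j, k), hjk⟩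
      simp only at this
      linarith
    · exact ⟨1, one_pos, fun j k hjk => absurd ⟨⟨(j, k), hjk⟩⟩ hne⟩
  refine ⟨fun j => W (g j), u, min ε0 (min 1 η), ?_, fun j => hWn _, fun j => ?_, ?_, ?_, ?_, ?_⟩
  · rw [huW]; exact hWn 0
  · rw [huW, hW, zero_sub, Real.cos_neg]
    have h2 : Real.cos 1 ≤ Real.cos (g j) :=
      Real.cos_le_cos_of_nonneg_of_le_pi (hg0 j) (by linarith [Real.pi_gt_three]) (hg1 j)
    have h3 : (1 : ℝ) / 2 ≤ Real.cos 1 := by
      have := Real.one_sub_sq_div_two_le_cos (x := 1)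
      linarith
    linarith
  · exact lt_min h0 (lt_min one_pos hη)
  · exact (min_le_right _ _).trans (min_le_left _ _)
  · exact (min_le_right _ _).trans (min_le_right _ _)
  · intro j k hjk
    rw [hW]
    have := h1 j k hjk
    have h2 := min_le_left ε0 (min 1 η)
    linarith

theorem family (d : ℕ) (hd : 2 ≤ d) (η : ℝ) (hη : 0 < η) (p : ℕ) (hp : p.Prime) :
    ∃ A : Fin (2 * p ^ 2) → Set (EuclideanSpace ℝ (Fin d)),
      (∀ i, IsCompact (A i) ∧ Convex ℝ (A i) ∧ ∃ (x : EuclideanSpace ℝ (Fin d)) (r : ℝ), 0 < r ∧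
        closedBall x r ⊆ A i ∧ A i ⊆ closedBall x ((1 + η) * r)) ∧
      (∃ x y, ∀ i, x ∈ A i ∨ y ∈ A i) ∧
      ∀ H, IsSpanner 2 (interGraph A) H →
        ((2 * p ^ 2 : ℕ) : ℝ) ^ (3 / 2 : ℝ) ≤ 6 * (H.edgeSet.ncard : ℝ) := by
  classical
  have : Fact p.Prime := ⟨hp⟩
  obtain ⟨w, u, ε, hu, hw, huw, hε, hε1, hεη, hww⟩ :=
    exists_vectors d hd (ZMod p × ZMod p) η hη
  have hcard : Fintype.card ((ZMod p × ZMod p) ⊕ (ZMod p × ZMod p)) = 2 * p ^ 2 := by
    rw [Fintype.card_sum, Fintype.card_prod, ZMod.card]; ring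
  let e : Fin (2 * p ^ 2) ≃ (ZMod p × ZMod p) ⊕ (ZMod p × ZMod p) :=
    (finCongr hcard.symm).trans (Fintype.equivFin _).symm
  let F : (ZMod p × ZMod p) ⊕ (ZMod p × ZMod p) → Set (EuclideanSpace ℝ (Fin d)) :=
    Sum.elim (bodyA w ε (Inc p)) (bodyB w ε)
  have hF1 : ∀ k, IsCompact (F k) ∧ Convex ℝ (F k) ∧
      ∃ (x : EuclideanSpace ℝ (Fin d)) (r : ℝ), 0 < r ∧
        closedBall x r ⊆ F k ∧ F k ⊆ closedBall x ((1 + η) * r) := by
    rintro (i | j)
    · show IsCompact (bodyA w ε (Inc p) i) ∧ Convex ℝ (bodyA w ε (Inc p) i) ∧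
        ∃ (x : EuclideanSpace ℝ (Fin d)) (r : ℝ), 0 < r ∧
        closedBall x r ⊆ (bodyA w ε (Inc p) i) ∧
          (bodyA w ε (Inc p) i) ⊆ closedBall x ((1 + η) * r)
      refine ⟨?_, bodyA_convex i, 0, 1, one_pos, bodyA_big hw hε i, ?_⟩
      · exact (isCompact_closedBall 0 (1 + ε)).of_isClosed_subset (bodyA_closed i)
          Set.inter_subset_left
      · intro x hx
        have := hx.1
        rw [mem_closedBall_zero_iff] at this ⊢
        linarith
    · show IsCompact (bodyB w ε j) ∧ Convex ℝ (bodyB w ε j) ∧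
        ∃ (x : EuclideanSpace ℝ (Fin d)) (r : ℝ), 0 < r ∧
        closedBall x r ⊆ (bodyB w ε j) ∧ (bodyB w ε j) ⊆ closedBall x ((1 + η) * r)
      refine ⟨isCompact_closedBall _ _, convex_closedBall _ _, _, 20, by norm_num, subset_rfl, ?_⟩
      exact closedBall_subset_closedBall (by linarith)
  have hF2 : ∀ k, (0 : EuclideanSpace ℝ (Fin d)) ∈ F k ∨ ((1 + ε / 2 + 20) / 2) • u ∈ F k := by
    rintro (i | j)
    · exact Or.inl (bodyA_big hw hε i (mem_closedBall_self zero_le_one))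
    · exact Or.inr (stabB hu hw huw hε hε1 j)
  refine ⟨fun k => F (e k), fun k => hF1 (e k), ⟨0, ((1 + ε / 2 + 20) / 2) • u,
    fun k => hF2 (e k)⟩, ?_⟩
  · intro H hH
    have h1 := spanner_lower (P := ZMod p × ZMod p) (Q := ZMod p × ZMod p) _ H hH
      (fun i => e.symm (Sum.inl i)) (fun j => e.symm (Sum.inr j))
      (fun i j h => Sum.inl_injective (e.symm.injective h))
      (fun i j h => Sum.inr_injective (e.symm.injective h))
      (fun i j h => Sum.inl_ne_inr (e.symm.injective h))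
      (fun x => by
        rcases h : e x with i | j
        · exact Or.inl ⟨i, by rw [← h, Equiv.symm_apply_apply]⟩
        · exact Or.inr ⟨j, by rw [← h, Equiv.symm_apply_apply]⟩)
      (Inc p)
      (fun i j => by
        simp only [interGraph, Equiv.apply_symm_apply, F, Sum.elim_inl, Sum.elim_inr]
        constructor
        · rintro ⟨_, h⟩
          by_contra hc
          exact apart hw hε hc h
        · intro h
          exact ⟨fun h' => Sum.inl_ne_inr (e.symm.injective h'), meet hw hε hε1 hww h⟩)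
      (fun i i' j j' => inc_c4 p i i' j j')
    rw [inc_card p] at h1
    have h2 : ((p : ℝ)) ^ 3 ≤ 2 * (H.edgeSet.ncard : ℝ) := by exact_mod_cast h1
    have hp0 : (0 : ℝ) ≤ p := Nat.cast_nonneg p
    have h3 : ((2 * p ^ 2 : ℕ) : ℝ) ^ (3 / 2 : ℝ) ≤ 3 * (p : ℝ) ^ 3 := by
      have h4 : ((2 * p ^ 2 : ℕ) : ℝ) ^ (3 / 2 : ℝ) = Real.sqrt 8 * (p : ℝ) ^ 3 := by
        have h5 : (0 : ℝ) ≤ ((2 * p ^ 2 : ℕ) : ℝ) := Nat.cast_nonneg _
        have h6 : ((2 * p ^ 2 : ℕ) : ℝ) ^ (3 / 2 : ℝ) = Real.sqrt (((2 * p ^ 2 : ℕ) : ℝ) ^ 3) := by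
          rw [Real.sqrt_eq_rpow, ← Real.rpow_natCast, ← Real.rpow_mul h5]
          norm_num
        rw [h6]
        have h7 : (((2 * p ^ 2 : ℕ) : ℝ)) ^ 3 = 8 * ((p : ℝ) ^ 3) ^ 2 := by push_cast; ring
        rw [h7, Real.sqrt_mul (by norm_num), Real.sqrt_sq (by positivity)]
      rw [h4]
      have h8 : Real.sqrt 8 ≤ 3 := by
        rw [show (3 : ℝ) = Real.sqrt (3 ^ 2) by rw [Real.sqrt_sq (by norm_num)]]
        exact Real.sqrt_le_sqrt (by norm_num)
      exact mul_le_mul_of_nonneg_right h8 (by positivity)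
    linarith

theorem fat_of_two {d : ℕ} {ι : Type*} (A : ι → Set (EuclideanSpace ℝ (Fin d)))
    (h : ∃ x y, ∀ i, x ∈ A i ∨ y ∈ A i) : Fat 2 A := by
  classical
  obtain ⟨x, y, h⟩ := h
  intro a ℓ _
  refine ⟨{x, y}, ?_, fun i _ _ => ?_⟩
  · exact_mod_cast Finset.card_le_two
  · rcases h i with h | h
    · exact ⟨x, by simp, h⟩
    · exact ⟨y, by simp, h⟩

/-- **Almost round convex bodies may need `n^(3/2) / 6` edges in every 2-spanner of their
intersection graph.** In particular there is no bound `K n^(3/2 - δ)` for the sizes of 2-spanners of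
the intersection graphs of fat families in three dimensions. -/
theorem result :
    (∀ d : ℕ, 2 ≤ d → ∀ η : ℝ, 0 < η → ∀ p : ℕ, p.Prime →
      ∃ A : Fin (2 * p ^ 2) → Set (EuclideanSpace ℝ (Fin d)),
        (∀ i, IsCompact (A i) ∧ Convex ℝ (A i) ∧
          ∃ (x : EuclideanSpace ℝ (Fin d)) (r : ℝ), 0 < r ∧
            closedBall x r ⊆ A i ∧ A i ⊆ closedBall x ((1 + η) * r)) ∧
        (∃ x y, ∀ i, x ∈ A i ∨ y ∈ A i) ∧ Fat 2 A ∧
        ∀ H, IsSpanner 2 (interGraph A) H →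
          ((2 * p ^ 2 : ℕ) : ℝ) ^ (3 / 2 : ℝ) ≤ 6 * (H.edgeSet.ncard : ℝ)) ∧
    ¬ ∃ δ : ℝ, 0 < δ ∧ ∀ c : ℝ, 1 ≤ c → ∃ K : ℝ, ∀ (n : ℕ)
      (A : Fin n → Set (EuclideanSpace ℝ (Fin 3))),
        (∀ i, (A i).Nonempty ∧ Bornology.IsBounded (A i)) → Fat c A →
        ∃ H, IsSpanner 2 (interGraph A) H ∧
          (H.edgeSet.ncard : ℝ) ≤ K * (n : ℝ) ^ (3 / 2 - δ) := by
  constructor
  · intro d hd η hη p hp
    obtain ⟨A, h1, h2, h3⟩ := family d hd η hη p hp
    exact ⟨A, h1, h2, fat_of_two A h2, h3⟩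
  · rintro ⟨δ, hδ, h⟩
    obtain ⟨K, hK⟩ := h 2 (by norm_num)
    -- a large prime
    have hlim : Filter.Tendsto (fun n : ℕ => (n : ℝ) ^ δ) Filter.atTop Filter.atTop :=
      (tendsto_rpow_atTop hδ).comp tendsto_natCast_atTop_atTop
    obtain ⟨n0, hn0⟩ := (hlim.eventually_gt_atTop (6 * |K| + 1)).exists_forall_of_atTop
    obtain ⟨p, hp1, hp⟩ := Nat.exists_infinite_primes (n0 + 1)
    obtain ⟨A, h1, h2, h3⟩ := family 3 (by norm_num) 1 one_pos p hp
    obtain ⟨H, hH, hcard⟩ := hK (2 * p ^ 2) A (fun i => by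
      obtain ⟨hc, _, x, r, hr, hs, _⟩ := h1 i
      exact ⟨⟨x, hs (mem_closedBall_self hr.le)⟩, hc.isBounded⟩) (fat_of_two A h2)
    have h4 := h3 H hH
    have hp0 := hp.pos
    have hm1 : n0 ≤ 2 * p ^ 2 := by nlinarith
    have hm2 : 0 < 2 * p ^ 2 := by positivity
    clear h1 h2 h3 hH
    generalize H.edgeSet.ncard = N at h4 hcard
    clear H A
    generalize 2 * p ^ 2 = m at h4 hcard hm1 hm2
    have hm0 : (0 : ℝ) < m := Nat.cast_pos.2 hm2
    have h5 : 6 * |K| + 1 < (m : ℝ) ^ δ := hn0 m hm1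
    rw [Real.rpow_sub hm0] at hcard
    have h6 : (0 : ℝ) < (m : ℝ) ^ δ := Real.rpow_pos_of_pos hm0 _
    have h7 : (0 : ℝ) < (m : ℝ) ^ (3 / 2 : ℝ) := Real.rpow_pos_of_pos hm0 _
    have h8 : K * ((m : ℝ) ^ (3 / 2 : ℝ) / (m : ℝ) ^ δ) * (m : ℝ) ^ δ = K * (m : ℝ) ^ (3 / 2 : ℝ) := by
      field_simp
    have h9 : (m : ℝ) ^ (3 / 2 : ℝ) * (m : ℝ) ^ δ ≤ 6 * (K * (m : ℝ) ^ (3 / 2 : ℝ)) := by
      rw [← h8]
      calc (m : ℝ) ^ (3 / 2 : ℝ) * (m : ℝ) ^ δ ≤ (6 * (N : ℝ)) * (m : ℝ) ^ δ :=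
            mul_le_mul_of_nonneg_right h4 h6.le
        _ ≤ (6 * (K * ((m : ℝ) ^ (3 / 2 : ℝ) / (m : ℝ) ^ δ))) * (m : ℝ) ^ δ := by
            refine mul_le_mul_of_nonneg_right ?_ h6.le
            linarith
        _ = _ := by ring
    have h10 : (m : ℝ) ^ δ ≤ 6 * K := by
      have : (m : ℝ) ^ (3 / 2 : ℝ) * (m : ℝ) ^ δ ≤ (m : ℝ) ^ (3 / 2 : ℝ) * (6 * K) := by
        linarith
      exact le_of_mul_le_mul_left this h7
    have h11 := le_abs_self K
    linarith

end Pool.Agent.Results.MP_47a88a_co.ConvexBodiesNeedThreeHalves
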